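import Pool.Agent.W937.FG.Stm

/-!
FG-AC2: the backward run of the amplifier.
-/

set_option autoImplicit false

namespace Pool.Agent.W101.FG.AC2

open Pool.Agent.W937.FG Function

variable {T : Type}

/-- a run without output -/
abbrev R (p : Prog T Reg) (s s' : Reg → ℕ) : Prop := Exec true p s ([] : List T) s'

theorem seq {p q : Prog T Reg} {s t u : Reg → ℕ} (h1 : R p s t) (h2 : R q t u) :
    R (.seq p q) s u := Exec.seq h1 h2

theorem star_trans' {p : Prog T Reg} {s t u : Reg → ℕ} {w x : List T}
    (h1 : Exec true (.star p) s w t) :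
    Exec true (.star p) t x u → Exec true (.star p) s (w ++ x) u := by
  generalize hP : Prog.star p = P at h1
  induction h1 with
  | op h => exact absurd hP (by simp)
  | seq h1 h2 _ _ => exact absurd hP (by simp)
  | altl h _ => exact absurd hP (by simp)
  | altr h _ => exact absurd hP (by simp)
  | star_nil => intro h; simpa using h
  | star_cons h1 h2 _ ih2 =>
    intro h
    rw [List.append_assoc]
    exact Exec.star_cons h1 (ih2 hP h)

theorem star_trans {p : Prog T Reg} {s t u : Reg → ℕ}
    (h1 : R (.star p) s t) (h2 : R (.star p) t u) : R (.star p) s u := star_trans' h1 h2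

theorem star_one {p : Prog T Reg} {s t : Reg → ℕ} (h : R p s t) : R (.star p) s t :=
  Exec.star_cons h Exec.star_nil

theorem star_cons {p : Prog T Reg} {s t u : Reg → ℕ} (h : R p s t) (h2 : R (.star p) t u) :
    R (.star p) s u := Exec.star_cons h h2

theorem altP_mem (p : ℕ → Prog T Reg) {j : ℕ} {s t : Reg → ℕ} (h : R (p j) s t) :
    ∀ k, j ≤ k → R (altP T p k) s t := by
  intro k hk
  induction k with
  | zero =>
    have : j = 0 := by omega
    subst this; exact h
  | succ k ih =>
    rcases Nat.lt_or_ge k j with h1 | h1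
    · have : j = k + 1 := by omega
      subst this; exact Exec.altr h
    · exact Exec.altl (ih h1)

/-! ### elementary operations -/

theorem upN (n t n' : ℕ) (a r : ℕ → ℕ) : update (st n t a r) .N n' = st n' t a r := by
  funext x
  cases x <;> simp [st, update_apply]

theorem upT (n t t' : ℕ) (a r : ℕ → ℕ) : update (st n t a r) .T t' = st n t' a r := by
  funext x
  cases x <;> simp [st, update_apply]

theorem upA (n t j x : ℕ) (a r : ℕ → ℕ) :
    update (st n t a r) (.A j) x = st n t (update a j x) r := by
  funext y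
  cases y <;> simp [st, update_apply]

variable (n t : ℕ) (a r : ℕ → ℕ)

theorem incN : R (incP T .N) (st n t a r) (st (n + 1) t a r) :=
  Exec.op ⟨rfl, (upN n t (n + 1) a r).symm⟩

theorem incT : R (incP T .T) (st n t a r) (st n (t + 1) a r) :=
  Exec.op ⟨rfl, (upT n t (t + 1) a r).symm⟩

theorem incA (j : ℕ) : R (incP T (.A j)) (st n t a r) (st n t (update a j (a j + 1)) r) :=
  Exec.op ⟨rfl, (upA n t j (a j + 1) a r).symm⟩

theorem decN : R (decP T .N) (st (n + 1) t a r) (st n t a r) :=
  Exec.op ⟨rfl, Or.inl ⟨Nat.succ_pos n, (upN (n + 1) t n a r).symm⟩⟩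

theorem decT : R (decP T .T) (st n (t + 1) a r) (st n t a r) :=
  Exec.op ⟨rfl, Or.inl ⟨Nat.succ_pos t, (upT n (t + 1) t a r).symm⟩⟩

theorem decA {j : ℕ} (h : 0 < a j) :
    R (decP T (.A j)) (st n t a r) (st n t (update a j (a j - 1)) r) :=
  Exec.op ⟨rfl, Or.inl ⟨h, (upA n t j (a j - 1) a r).symm⟩⟩

theorem zeroN : R (zeroP T .N) (st 0 t a r) (st 0 t a r) := Exec.op ⟨rfl, rfl, rfl⟩

theorem zeroT : R (zeroP T .T) (st n 0 a r) (st n 0 a r) := Exec.op ⟨rfl, rfl, rfl⟩

theorem zeroA1 {j : ℕ} (h : a j = 0) : R (zeroP T (.A j)) (st n t a r) (st n t a r) :=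
  Exec.op ⟨rfl, h, rfl⟩

theorem zeroAll : ∀ j, (∀ i, i < j → a i = 0) → R (zeroA T j) (st n t a r) (st n t a r) := by
  intro j
  induction j with
  | zero => intro _; exact Exec.op ⟨rfl, rfl⟩
  | succ j ih => intro h; exact seq (ih fun i hi => h i (by omega)) (zeroA1 n t a r (h j (by omega)))

/-! ### loops -/

theorem loop1 (j : ℕ) (r : ℕ → ℕ) : ∀ (m t : ℕ) (a : ℕ → ℕ), a j = m →
    R (.star (.seq (decP T .N) (.seq (incP T .T) (decP T (.A j))))) (st m t a r)
      (st 0 (t + m) (update a j 0) r) := by
  intro m
  induction m with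
  | zero =>
    intro t a h
    have : update a j 0 = a := by rw [← h]; exact update_eq_self j a
    rw [this]
    exact Exec.star_nil
  | succ m ih =>
    intro t a h
    refine star_cons (t := st m (t + 1) (update a j m) r) ?_ ?_
    · refine seq (decN m t a r) (seq (incT m t a r) ?_)
      have := decA (T := T) m (t + 1) a r (j := j) (by omega)
      rw [h] at this
      exact this
    · have := ih (t + 1) (update a j m) (update_self j m a)
      rw [update_idem] at this
      have e : t + 1 + m = t + (m + 1) := by ring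
      rw [e] at this
      exact this

theorem loop2 (a r : ℕ → ℕ) : ∀ (m n : ℕ),
    R (.star (.seq (decP T .T) (incP T .N))) (st n m a r) (st (n + m) 0 a r) := by
  intro m
  induction m with
  | zero => intro n; exact Exec.star_nil
  | succ m ih =>
    intro n
    refine star_cons (t := st (n + 1) m a r) (seq (decT n m a r) (incN n m a r)) ?_
    have := ih (n + 1)
    have e : n + 1 + m = n + (m + 1) := by ring
    rw [e] at this
    exact this

theorem bm (j : ℕ) (h : ∀ i, i < j → a i = 0) (hj : a j = n + 1) :
    R (BM T (j + 1)) (st n 0 a r) (st n 0 (update (update a j 0) (j + 1) (a (j + 1) + 1)) r) := by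
  refine seq (zeroAll n 0 a r j h) ?_
  refine seq (decA n 0 a r (j := j) (by omega)) ?_
  rw [hj, Nat.add_sub_cancel]
  refine seq (loop1 j r n 0 (update a j n) (update_self j n a)) ?_
  rw [update_idem, Nat.zero_add]
  refine seq (zeroA1 _ _ _ _ (update_self j 0 a)) ?_
  refine seq (zeroN _ _ _) ?_
  refine seq (loop2 _ r n 0) ?_
  rw [Nat.zero_add]
  refine seq (zeroT _ _ _) ?_
  have := incA (T := T) n 0 (update a j 0) r (j + 1)
  rw [update_of_ne (by omega : j + 1 ≠ j)] at this
  exact this

theorem ball_of_bm {k j : ℕ} (hj : j ≤ k) {s s' : Reg → ℕ} (h : R (BM T j) s s') :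
    R (Ball T k) s s' := star_one (altP_mem (BM T) h k hj)

theorem key (k : ℕ) (r : ℕ → ℕ) : ∀ j, j ≤ k → ∀ (n : ℕ) (a : ℕ → ℕ), (∀ i, i < j → a i = 0) →
    R (Ball T k) (st (F j n) 0 a r) (st n 0 (update a j (a j + 1)) r) := by
  intro j
  induction j with
  | zero =>
    intro hk n a _
    refine ball_of_bm hk ?_
    exact seq (decN n 0 a r) (incA n 0 a r 0)
  | succ j ih =>
    intro hk n a ha
    have ih' := ih (by omega)
    have inner : ∀ (p c : ℕ), R (Ball T k) (st ((F j)^[p] n) 0 (update a j c) r)
        (st n 0 (update a j (c + p)) r) := by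
      intro p
      induction p with
      | zero => intro c; exact Exec.star_nil
      | succ p ihp =>
        intro c
        rw [iterate_succ_apply']
        have h1 := ih' ((F j)^[p] n) (update a j c) (fun i hi => by
          rw [update_of_ne (by omega : i ≠ j)]; exact ha i (by omega))
        rw [update_self, update_idem] at h1
        have h2 := ihp (c + 1)
        have e : c + 1 + p = c + (p + 1) := by ring
        rw [e] at h2
        exact star_trans h1 h2
    have h1 := inner (n + 1) 0
    have e0 : update a j 0 = a := by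
      rw [← ha j (by omega)]; exact update_eq_self j a
    rw [e0, Nat.zero_add] at h1
    have h2 := ball_of_bm (k := k) (show j + 1 ≤ k by omega)
      (bm (T := T) n (update a j (n + 1)) r j (fun i hi => by
        rw [update_of_ne (by omega : i ≠ j)]; exact ha i (by omega)) (update_self j (n + 1) a))
    rw [update_idem, e0, update_of_ne (by omega : j + 1 ≠ j)] at h2
    exact star_trans h1 h2

theorem main : PropAC2 := by
  intro T k n r
  have := key (T := T) k r k le_rfl n (fun _ => 0) (fun _ _ => rfl)
  exact this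

end Pool.Agent.W101.FG.AC2
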